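import Mathlib
import Pool.Agent.U709.FF.Stm

/-!
# Project FF, package AB: small linear `q`-groups are abelian

`t_AB : AB`.
-/

set_option autoImplicit false

namespace Pool.Agent.U928.FF.AB

open Pool.Agent.U709.FF Matrix Finset

/-- over an algebraically closed field: a commutator of finite order `q ^ k` which commutes with
its two entries is trivial, in dimension less than `q` -/
theorem key {E V : Type} [Field E] [IsAlgClosed E] [AddCommGroup V] [Module E V]
    [FiniteDimensional E V] (q k : ℕ) (hq : q.Prime) (hn : Module.finrank E V < q)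
    (hqE : (q : E) ≠ 0) (z g c : Module.End E V) (hz : Function.Injective z)
    (hg : Function.Injective g) (hcQ : c ^ (q ^ k) = 1) (hcz : c * z = z * c)
    (hcg : c * g = g * c) (h : z * g = c * (g * z)) : c = 1 := by
  by_contra hc
  set U : Submodule E V := LinearMap.range (c - 1) with hUdef
  have hU : U ≠ ⊥ := by
    intro h0
    rw [hUdef, LinearMap.range_eq_bot] at h0
    exact hc (sub_eq_zero.1 h0)
  have hUinv : ∀ x ∈ U, c x ∈ U := by
    rintro x ⟨w, rfl⟩
    refine ⟨c w, ?_⟩
    simp [LinearMap.sub_apply, map_sub]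
  have : Nontrivial U := (Submodule.nontrivial_iff_ne_bot).2 hU
  obtain ⟨v, hv⟩ := Module.End.exists_eigenvalue (c.restrict hUinv)
  obtain ⟨u, hu⟩ := hv.exists_hasEigenvector
  have h1 : c (u : V) = v • (u : V) := by
    have := congrArg Subtype.val hu.apply_eq_smul
    simpa using this
  have hu0 : (u : V) ≠ 0 := fun h0 => hu.2 (Subtype.ext h0)
  have hpow : ∀ i : ℕ, (c ^ i) (u : V) = v ^ i • (u : V) := by
    intro i
    induction i with
    | zero => simp
    | succ i ih => rw [pow_succ', Module.End.mul_apply, ih, map_smul, h1, smul_smul, pow_succ]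
  have hvQ : v ^ (q ^ k) = 1 := by
    have h2 := hpow (q ^ k)
    rw [hcQ, Module.End.one_apply] at h2
    have h3 : (v ^ (q ^ k) - 1) • (u : V) = 0 := by rw [sub_smul, one_smul, ← h2, sub_self]
    rcases smul_eq_zero.1 h3 with h4 | h4
    · exact sub_eq_zero.1 h4
    · exact absurd h4 hu0
  have hv1 : v ≠ 1 := by
    intro hv1
    obtain ⟨w, hw⟩ := u.2
    have h2 : (∑ i ∈ range (q ^ k), c ^ i) (u : V) = 0 := by
      rw [← hw, ← Module.End.mul_apply, geom_sum_mul, hcQ, sub_self, LinearMap.zero_apply]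
    rw [LinearMap.sum_apply] at h2
    have h3 : ∑ i ∈ range (q ^ k), (c ^ i) (u : V) = ((q ^ k : ℕ) : E) • (u : V) := by
      rw [sum_congr rfl (fun i _ => by rw [hpow i, hv1, one_pow, one_smul] :
        ∀ i ∈ range (q ^ k), (c ^ i) (u : V) = (u : V)), sum_const, card_range, Nat.cast_smul_eq_nsmul]
    rw [h3] at h2
    rcases smul_eq_zero.1 h2 with h4 | h4
    · rw [Nat.cast_pow] at h4
      exact hqE (eq_zero_of_pow_eq_zero h4)
    · exact hu0 h4
  set W : Submodule E V := Module.End.eigenspace c v with hWdef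
  have hW : ∀ x, x ∈ W ↔ c x = v • x := fun x => Module.End.mem_eigenspace_iff
  have hcz' : ∀ x, c (z x) = z (c x) := fun x => by
    have := LinearMap.congr_fun hcz x; simpa [Module.End.mul_apply] using this
  have hcg' : ∀ x, c (g x) = g (c x) := fun x => by
    have := LinearMap.congr_fun hcg x; simpa [Module.End.mul_apply] using this
  have hzW : ∀ x ∈ W, z x ∈ W := fun x hx => by
    rw [hW] at hx ⊢; rw [hcz', hx, map_smul]
  have hgW : ∀ x ∈ W, g x ∈ W := fun x hx => by
    rw [hW] at hx ⊢; rw [hcg', hx, map_smul]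
  have hcomp : (z.restrict hzW) * (g.restrict hgW) = v • ((g.restrict hgW) * (z.restrict hzW)) := by
    ext x
    have h2 := LinearMap.congr_fun h (x : V)
    simp only [Module.End.mul_apply] at h2
    have h3 : c (g (z (x : V))) = v • g (z (x : V)) := (hW _).1 (hgW _ (hzW _ x.2))
    rw [h3] at h2
    simpa [Module.End.mul_apply] using h2
  have hzdet : LinearMap.det (z.restrict hzW) ≠ 0 := by
    have h2 : IsUnit (z.restrict hzW) := by
      rw [LinearMap.isUnit_iff_ker_eq_bot, LinearMap.ker_eq_bot]
      intro x y hxy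
      exact Subtype.ext (hz (by simpa using congrArg Subtype.val hxy))
    exact (h2.map LinearMap.det).ne_zero
  have hgdet : LinearMap.det (g.restrict hgW) ≠ 0 := by
    have h2 : IsUnit (g.restrict hgW) := by
      rw [LinearMap.isUnit_iff_ker_eq_bot, LinearMap.ker_eq_bot]
      intro x y hxy
      exact Subtype.ext (hg (by simpa using congrArg Subtype.val hxy))
    exact (h2.map LinearMap.det).ne_zero
  have hvd : v ^ Module.finrank E W = 1 := by
    have h2 := congrArg LinearMap.det hcomp
    rw [LinearMap.det_smul, map_mul, map_mul] at h2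
    have h3 : (v ^ Module.finrank E W - 1) *
        (LinearMap.det (g.restrict hgW) * LinearMap.det (z.restrict hzW)) = 0 := by
      rw [sub_mul, one_mul, ← h2, mul_comm (LinearMap.det (z.restrict hzW)), sub_self]
    rcases mul_eq_zero.1 h3 with h4 | h4
    · exact sub_eq_zero.1 h4
    · exact absurd h4 (mul_ne_zero hgdet hzdet)
  have hd0 : 0 < Module.finrank E W := by
    have : Nontrivial W := ⟨⟨⟨(u : V), (hW _).2 h1⟩, 0, fun h2 => hu0 (congrArg Subtype.val h2)⟩⟩
    exact Module.finrank_pos
  have hdq : Module.finrank E W < q := lt_of_le_of_lt (Submodule.finrank_le W) hn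
  have hcop : (Module.finrank E W).Coprime (q ^ k) :=
    Nat.Coprime.pow_right k ((Nat.coprime_comm.1
      ((Nat.Prime.coprime_iff_not_dvd hq).2 (Nat.not_dvd_of_pos_of_lt hd0 hdq))))
  have h5 : v ^ Nat.gcd (Module.finrank E W) (q ^ k) = 1 := pow_gcd_eq_one.2 ⟨hvd, hvQ⟩
  rw [Nat.Coprime.gcd_eq_one hcop, pow_one] at h5
  exact hv1 h5

theorem t_AB : Pool.Agent.U709.FF.AB := by
  intro F _ n q hq hn hqF P _ hP
  have : Fact q.Prime := ⟨hq⟩
  -- it suffices to show that the group `P` is commutative
  suffices hcomm : ∀ a b : P, a * b = b * a by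
    intro a ha b hb
    exact congrArg Subtype.val (hcomm ⟨a, ha⟩ ⟨b, hb⟩)
  by_contra hnot
  push Not at hnot
  obtain ⟨a, b, hab⟩ := hnot
  -- the quotient by the center
  have ha : a ∉ Subgroup.center P := by
    intro h
    exact hab ((Subgroup.mem_center_iff.1 h b).symm)
  have : Nontrivial (P ⧸ Subgroup.center P) := by
    refine ⟨⟨(a : P ⧸ Subgroup.center P), 1, fun h => ha ?_⟩⟩
    exact (QuotientGroup.eq_one_iff a).1 h
  have hQ : IsPGroup q (P ⧸ Subgroup.center P) := hP.to_quotient _
  have := hQ.center_nontrivial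
  obtain ⟨⟨w, hwc⟩, hw1⟩ := exists_ne (1 : Subgroup.center (P ⧸ Subgroup.center P))
  obtain ⟨z, rfl⟩ := QuotientGroup.mk_surjective w
  have hz : z ∉ Subgroup.center P := by
    intro h
    exact hw1 (Subtype.ext ((QuotientGroup.eq_one_iff z).2 h))
  obtain ⟨g, hg⟩ : ∃ g, g * z ≠ z * g := by
    by_contra h
    push Not at h
    exact hz (Subgroup.mem_center_iff.2 h)
  have hc : z * g * z⁻¹ * g⁻¹ ∈ Subgroup.center P := by
    rw [← QuotientGroup.eq_one_iff]
    have h2 := Subgroup.mem_center_iff.1 hwc (g : P ⧸ Subgroup.center P)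
    have h3 : ((z * g * z⁻¹ * g⁻¹ : P) : P ⧸ Subgroup.center P) =
        (z : P ⧸ Subgroup.center P) * g * (z : P ⧸ Subgroup.center P)⁻¹ *
          (g : P ⧸ Subgroup.center P)⁻¹ := rfl
    rw [h3, mul_inv_eq_one, mul_inv_eq_iff_eq_mul]
    exact h2.symm
  set c : P := z * g * z⁻¹ * g⁻¹ with hcdef
  have hc1 : c ≠ 1 := by
    intro h
    rw [hcdef, mul_inv_eq_one, mul_inv_eq_iff_eq_mul] at h
    exact hg h.symm
  have hzg : z * g = c * (g * z) := by rw [hcdef]; group
  have hcz : c * z = z * c := ((Subgroup.mem_center_iff.1 hc) z).symm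
  have hcg : c * g = g * c := ((Subgroup.mem_center_iff.1 hc) g).symm
  obtain ⟨k, hk⟩ := hP c
  -- pass to endomorphisms over the algebraic closure
  let E := AlgebraicClosure F
  let φ : Matrix (Fin n) (Fin n) F →+* Module.End E (Fin n → E) :=
    ((Matrix.toLinAlgEquiv' : Matrix (Fin n) (Fin n) E ≃ₐ[E] _) :
      Matrix (Fin n) (Fin n) E →+* Module.End E (Fin n → E)).comp
      (RingHom.mapMatrix (algebraMap F E))
  have hφ : Function.Injective φ := by
    intro A B hAB
    have h2 : (RingHom.mapMatrix (algebraMap F E)) A = (RingHom.mapMatrix (algebraMap F E)) B :=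
      (Matrix.toLinAlgEquiv' : Matrix (Fin n) (Fin n) E ≃ₐ[E] _).injective hAB
    ext i j
    have h3 := congrFun (congrFun h2 i) j
    exact (algebraMap F E).injective h3
  let ψ : P →* Module.End E (Fin n → E) :=
    (φ : Matrix (Fin n) (Fin n) F →* Module.End E (Fin n → E)).comp
      ((Units.coeHom (Matrix (Fin n) (Fin n) F)).comp P.subtype)
  have hψ : Function.Injective ψ := by
    intro x y hxy
    apply Subtype.ext
    apply Units.ext
    exact hφ hxy
  have hinj : ∀ x : P, Function.Injective (ψ x) := by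
    intro x
    have h2 : IsUnit (ψ x) := (Group.isUnit x).map ψ
    rw [LinearMap.isUnit_iff_ker_eq_bot, LinearMap.ker_eq_bot] at h2
    exact h2
  have hqE : (q : E) ≠ 0 := by
    intro h
    apply hqF
    have h2 : algebraMap F E (q : F) = 0 := by rw [map_natCast]; exact h
    exact (map_eq_zero _).1 h2
  have hfin : ψ c = 1 := by
    apply key q k hq (by simpa using hn) hqE (ψ z) (ψ g) (ψ c) (hinj z) (hinj g)
    · rw [← map_pow, hk, map_one]
    · rw [← map_mul, ← map_mul, hcz]
    · rw [← map_mul, ← map_mul, hcg]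
    · rw [← map_mul, ← map_mul, ← map_mul, hzg]
  exact hc1 (hψ (by rw [hfin, map_one]))

end Pool.Agent.U928.FF.AB
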